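import Mathlib

/-!
# MP_d7db32_ag, Eq/O/Abp: an iterated product of matrices as a determinant

`abp N a b` is `fromBlocks 0 row col U` with `U = 1 - (N i)` below the diagonal (block `(i, i - 1)`, `i ≥ 1`), `col = - N 0 a` in the level `0`, `row = b` in the last level. `y 0 = a`, `y (i + 1) = N i *ᵥ y i`.
Let `K = fromBlocks 1 0 y 1` with the column `y (i + 1)` in the level `i`; `det K = 1`, `U *ᵥ y + col = 0`, so `abp * K = fromBlocks (b ⬝ᵥ y (r + 1)) row 0 U`, with determinant `(b ⬝ᵥ y (r + 1)) * det U` (`Matrix.det_fromBlocks_zero₂₁`),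
and `det U = 1` (lower triangular with ones on the diagonal: `Matrix.BlockTriangular` for the level, or `det_of_lowerTriangular` for the lexicographic order, or induction; e.g. `U = 1 - Z` with `Z` nilpotent:
`Matrix.isUnit_charpolyRev_of_isNilpotent`-like lemmas, or eigenvalues).
-/

set_option autoImplicit false

namespace PadDet.Eq

open Matrix

/-- The matrix of the product `N r ⋯ N 0`. -/
def abp {r : ℕ} {p : Type} [Fintype p] [DecidableEq p] (N : Fin (r + 1) → Matrix p p ℂ)
    (a b : p → ℂ) : Matrix (Unit ⊕ Fin (r + 1) × p) (Unit ⊕ Fin (r + 1) × p) ℂ :=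
  Matrix.fromBlocks 0
    (Matrix.of fun _ v => if v.1 = Fin.last r then b v.2 else 0)
    (Matrix.of fun v _ => if v.1 = 0 then -(N 0 *ᵥ a) v.2 else 0)
    (Matrix.of fun v v' => (if v = v' then 1 else 0) -
      if v.1.val = v'.1.val + 1 then N v.1 v.2 v'.2 else 0)

/-- the block `U` -/
private def abpU {r : ℕ} {p : Type} [Fintype p] [DecidableEq p] (N : Fin (r + 1) → Matrix p p ℂ) :
    Matrix (Fin (r + 1) × p) (Fin (r + 1) × p) ℂ :=
  Matrix.of fun v v' => (if v = v' then 1 else 0) -
      if v.1.val = v'.1.val + 1 then N v.1 v.2 v'.2 else 0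

private theorem abpU_det {r : ℕ} {p : Type} [Fintype p] [DecidableEq p]
    (N : Fin (r + 1) → Matrix p p ℂ) : (abpU N).det = 1 := by
  have hT : (abpU N).BlockTriangular (fun v => OrderDual.toDual v.1) := by
    intro v v' h
    have h1 : v.1 < v'.1 := h
    have h2 : v ≠ v' := by
      rintro rfl
      exact lt_irrefl _ h1
    have h3 : ¬ (v.1.val = v'.1.val + 1) := by
      have : v.1.val < v'.1.val := h1
      omega
    show (if v = v' then (1 : ℂ) else 0) - (if v.1.val = v'.1.val + 1 then N v.1 v.2 v'.2 else 0) = 0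
    rw [if_neg h2, if_neg h3, sub_zero]
  rw [hT.det]
  refine Finset.prod_eq_one fun a _ => ?_
  have : (abpU N).toSquareBlock (fun v => OrderDual.toDual v.1) a = 1 := by
    ext ⟨v, hv⟩ ⟨v', hv'⟩
    have h4 : v.1 = v'.1 := OrderDual.toDual.injective (hv.trans hv'.symm)
    have h3 : ¬ (v.1.val = v'.1.val + 1) := by
      rw [h4]
      omega
    show (if v = v' then (1 : ℂ) else 0) - (if v.1.val = v'.1.val + 1 then N v.1 v.2 v'.2 else 0) = _
    rw [if_neg h3, sub_zero, Matrix.one_apply]
    by_cases h5 : v = v'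
    · subst h5
      simp
    · rw [if_neg h5, if_neg]
      intro h6
      exact h5 (congrArg Subtype.val h6)
  rw [this, Matrix.det_one]

theorem abp_det {r : ℕ} {p : Type} [Fintype p] [DecidableEq p] (N : Fin (r + 1) → Matrix p p ℂ)
    (a b : p → ℂ) (y : ℕ → p → ℂ) (h0 : y 0 = a)
    (hy : ∀ i : Fin (r + 1), y (i.val + 1) = N i *ᵥ y i.val) :
    (abp N a b).det = b ⬝ᵥ y (r + 1) := by
  set Y : Matrix (Fin (r + 1) × p) Unit ℂ := Matrix.of fun v _ => y (v.1.val + 1) v.2 with hY
  set R : Matrix Unit (Fin (r + 1) × p) ℂ :=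
    Matrix.of fun _ v => if v.1 = Fin.last r then b v.2 else 0 with hR
  set C : Matrix (Fin (r + 1) × p) Unit ℂ :=
    Matrix.of fun v _ => if v.1 = 0 then -(N 0 *ᵥ a) v.2 else 0 with hC
  have hA : abp N a b = Matrix.fromBlocks 0 R C (abpU N) := rfl
  have hK : (Matrix.fromBlocks (1 : Matrix Unit Unit ℂ) 0 Y
      (1 : Matrix (Fin (r + 1) × p) (Fin (r + 1) × p) ℂ)).det = 1 := by
    rw [Matrix.det_fromBlocks_zero₁₂, Matrix.det_one, Matrix.det_one, mul_one]
  have h1 : C + abpU N * Y = 0 := by
    ext ⟨i, k⟩ u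
    have e1 : (abpU N * Y) (i, k) u = y (i.val + 1) k -
        ∑ j : Fin (r + 1), ∑ l, (if i.val = j.val + 1 then N i k l else 0) * y (j.val + 1) l := by
      rw [Matrix.mul_apply]
      have e2 : ∀ v : Fin (r + 1) × p, abpU N (i, k) v * Y v u =
          (if (i, k) = v then y (v.1.val + 1) v.2 else 0) -
            (if i.val = v.1.val + 1 then N i k v.2 else 0) * y (v.1.val + 1) v.2 := by
        intro v
        show ((if (i, k) = v then (1 : ℂ) else 0) - (if i.val = v.1.val + 1 then N i k v.2 else 0)) *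
          y (v.1.val + 1) v.2 = _
        rw [sub_mul, ite_mul, one_mul, zero_mul]
      simp only [e2]
      rw [Finset.sum_sub_distrib, Finset.sum_ite_eq, if_pos (Finset.mem_univ _),
        Fintype.sum_prod_type]
    rw [Matrix.add_apply, e1, Matrix.zero_apply]
    show (if i = 0 then -(N 0 *ᵥ a) k else 0) + _ = 0
    by_cases hi : i = 0
    · subst hi
      have e3 : ∑ j : Fin (r + 1), ∑ l, (if (0 : Fin (r + 1)).val = j.val + 1 then N 0 k l else 0) *
          y (j.val + 1) l = 0 := by
        refine Finset.sum_eq_zero fun j _ => Finset.sum_eq_zero fun l _ => ?_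
        rw [if_neg (by simp), zero_mul]
      rw [if_pos rfl, e3, sub_zero, hy 0, ← h0]
      simp
    · rw [if_neg hi, zero_add]
      have hi0 : i.val ≠ 0 := fun h => hi (Fin.ext h)
      have hj : i.val - 1 < r + 1 := by have := i.2; omega
      have e4 : ∑ j : Fin (r + 1), ∑ l, (if i.val = j.val + 1 then N i k l else 0) * y (j.val + 1) l =
          ∑ l, N i k l * y i.val l := by
        rw [Finset.sum_eq_single (⟨i.val - 1, hj⟩ : Fin (r + 1))]
        · refine Finset.sum_congr rfl fun l _ => ?_
          have e5 : i.val = i.val - 1 + 1 := by omega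
          show (if i.val = i.val - 1 + 1 then N i k l else 0) * y (i.val - 1 + 1) l = _
          rw [if_pos e5, ← e5]
        · intro j _ hj'
          refine Finset.sum_eq_zero fun l _ => ?_
          rw [if_neg, zero_mul]
          intro h6
          apply hj'
          apply Fin.ext
          show j.val = i.val - 1
          omega
        · intro h
          exact absurd (Finset.mem_univ _) h
      rw [e4, hy i]
      simp [Matrix.mulVec, dotProduct]
  have h2 : (R * Y).det = b ⬝ᵥ y (r + 1) := by
    rw [Matrix.det_unique, Matrix.mul_apply, Fintype.sum_prod_type]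
    rw [Finset.sum_eq_single (Fin.last r)]
    · refine Finset.sum_congr rfl fun k _ => ?_
      show (if Fin.last r = Fin.last r then b k else 0) * y ((Fin.last r).val + 1) k = _
      rw [if_pos rfl, Fin.val_last]
    · intro j _ hj
      refine Finset.sum_eq_zero fun k _ => ?_
      show (if j = Fin.last r then b k else 0) * y (j.val + 1) k = 0
      rw [if_neg hj, zero_mul]
    · intro h
      exact absurd (Finset.mem_univ _) h
  have h3 : (abp N a b * Matrix.fromBlocks (1 : Matrix Unit Unit ℂ) 0 Y
      (1 : Matrix (Fin (r + 1) × p) (Fin (r + 1) × p) ℂ)).det = b ⬝ᵥ y (r + 1) := by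
    rw [hA, Matrix.fromBlocks_multiply]
    simp only [Matrix.zero_mul, Matrix.mul_zero, Matrix.mul_one, zero_add, h1]
    rw [Matrix.det_fromBlocks_zero₂₁, abpU_det, mul_one, h2]
  rw [Matrix.det_mul, hK, mul_one] at h3
  exact h3

end PadDet.Eq
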