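import Pool.Agent.H.MP_d7db32_ag.Eq.O.Tra

/-!
# MP_d7db32_ag, Eq/O/Flv: the recursion of Faddeev and LeVerrier

`B = adj (charmatrix A)`, `B_j` the matrix of the coefficients of `X ^ j` of the entries of `B`, `N = n + 1` the size, `χ = A.charpoly`, monic of degree `N`. `charmatrix A * B = χ • 1` (`Matrix.mul_adjugate`, `charmatrix = X • 1 - C A`), coefficient of
`X ^ j`: `B_{j-1} - A * B_j = χ_j • 1` for `j ≥ 1`; `B_j = 0` for `j ≥ N` (degrees of the minors, or by descending induction from this relation). So `B_{N-1} = 1` and `B_{j-1} = A * B_j + χ_j • 1`.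
`tra`: `tr B_j = (j + 1) * χ_{j+1}`. Claim: `flv A i = B_{N-1-i}` for `i ≤ N - 1`, by induction: `b = B_{N-1-i}`, `j = N-1-i`: `tr (A b) + N * χ_j = tr B_{j-1} = j * χ_j`, so `tr (A b) = - (N - j) χ_j = - (i + 1) χ_j`.
`flv A n = B_0 = adj (charmatrix A)` at `X = 0` `= adj (- A) = (-1) ^ n • adj A` (`Matrix.adjugate_smul` or `adjugate_neg`).
-/

set_option autoImplicit false

namespace PadDet.Eq

open Matrix

/-- The recursion of Faddeev and LeVerrier. -/
noncomputable def flv {n : ℕ} (A : Matrix (Fin n) (Fin n) ℂ) : ℕ → Matrix (Fin n) (Fin n) ℂ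
  | 0 => 1
  | i + 1 => A * flv A i - ((A * flv A i).trace / ((i : ℂ) + 1)) • (1 : Matrix (Fin n) (Fin n) ℂ)

section

open Polynomial

variable {n : ℕ}

/-- The coefficients of the adjugate of the characteristic matrix. -/
private noncomputable def Flv_B (A : Matrix (Fin (n + 1)) (Fin (n + 1)) ℂ) (j : ℕ) :
    Matrix (Fin (n + 1)) (Fin (n + 1)) ℂ := A.charmatrix.adjugate.map fun p => p.coeff j

private theorem Flv_mul (A : Matrix (Fin (n + 1)) (Fin (n + 1)) ℂ)
    (B : Matrix (Fin (n + 1)) (Fin (n + 1)) ℂ[X]) (a b : Fin (n + 1)) :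
    (A.charmatrix * B) a b = X * B a b - ∑ c, C (A a c) * B c b := by
  have e : A.charmatrix = Matrix.scalar (Fin (n + 1)) (X : ℂ[X]) -
      (C : ℂ →+* ℂ[X]).mapMatrix A := rfl
  rw [e, Matrix.sub_mul, Matrix.sub_apply]
  congr 1
  rw [Matrix.scalar_apply, Matrix.diagonal_mul]

private theorem Flv_rec (A : Matrix (Fin (n + 1)) (Fin (n + 1)) ℂ) (j : ℕ) :
    Flv_B A j = A * Flv_B A (j + 1) +
      A.charpoly.coeff (j + 1) • (1 : Matrix (Fin (n + 1)) (Fin (n + 1)) ℂ) := by
  ext a b
  have h1 := congrFun (congrFun (Matrix.mul_adjugate A.charmatrix) a) b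
  rw [Flv_mul] at h1
  have h2 := congrArg (fun p : ℂ[X] => p.coeff (j + 1)) h1
  have h3 : (X * A.charmatrix.adjugate a b - ∑ c, C (A a c) * A.charmatrix.adjugate c b).coeff
      (j + 1) = (A.charmatrix.adjugate a b).coeff j -
        ∑ c, A a c * (A.charmatrix.adjugate c b).coeff (j + 1) := by
    rw [coeff_sub, coeff_X_mul, finsetSum_coeff]
    simp only [coeff_C_mul]
  have h4 : ((A.charmatrix.det • (1 : Matrix (Fin (n + 1)) (Fin (n + 1)) ℂ[X])) a b).coeff (j + 1)
      = (A.charpoly.coeff (j + 1) • (1 : Matrix (Fin (n + 1)) (Fin (n + 1)) ℂ)) a b := by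
    rw [Matrix.smul_apply, Matrix.smul_apply, smul_eq_mul, smul_eq_mul]
    by_cases hab : a = b
    · rw [hab, Matrix.one_apply_eq, Matrix.one_apply_eq, mul_one, mul_one]
      rfl
    · rw [Matrix.one_apply_ne hab, Matrix.one_apply_ne hab, mul_zero, mul_zero, coeff_zero]
  have h5 : (A.charmatrix.adjugate a b).coeff j -
      ∑ c, A a c * (A.charmatrix.adjugate c b).coeff (j + 1) =
        (A.charpoly.coeff (j + 1) • (1 : Matrix (Fin (n + 1)) (Fin (n + 1)) ℂ)) a b := by
    rw [← h3, ← h4]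
    exact h2
  rw [Matrix.add_apply, ← h5, Matrix.mul_apply]
  show (A.charmatrix.adjugate a b).coeff j = ∑ c, A a c *
    (A.charmatrix.adjugate c b).coeff (j + 1) + _
  ring

private theorem Flv_zero (A : Matrix (Fin (n + 1)) (Fin (n + 1)) ℂ) {j : ℕ} (hj : n + 1 ≤ j) :
    Flv_B A j = 0 := by
  obtain ⟨m, hm⟩ : ∃ m, ∀ a b, (A.charmatrix.adjugate a b).natDegree ≤ m :=
    ⟨∑ a, ∑ b, (A.charmatrix.adjugate a b).natDegree, fun a b =>
      (Finset.single_le_sum (f := fun b => (A.charmatrix.adjugate a b).natDegree)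
        (fun _ _ => Nat.zero_le _) (Finset.mem_univ b)).trans
      (Finset.single_le_sum (f := fun a => ∑ b, (A.charmatrix.adjugate a b).natDegree)
        (fun _ _ => Nat.zero_le _) (Finset.mem_univ a))⟩
  have key : ∀ k j, n + 1 ≤ j → m + 1 ≤ j + k → Flv_B A j = 0 := by
    intro k
    induction k with
    | zero =>
      intro j _ h
      ext a b
      exact coeff_eq_zero_of_natDegree_lt (lt_of_le_of_lt (hm a b) (by omega))
    | succ k ih =>
      intro j hj h
      rw [Flv_rec, ih (j + 1) (by omega) (by omega), Matrix.mul_zero, zero_add,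
        coeff_eq_zero_of_natDegree_lt (by
          rw [Matrix.charpoly_natDegree_eq_dim, Fintype.card_fin]
          omega), zero_smul]
  exact key (m + 1) j hj (by omega)

private theorem Flv_top (A : Matrix (Fin (n + 1)) (Fin (n + 1)) ℂ) : Flv_B A n = 1 := by
  have h1 : A.charpoly.coeff (n + 1) = 1 := by
    have h2 := A.charpoly_monic.coeff_natDegree
    rwa [Matrix.charpoly_natDegree_eq_dim, Fintype.card_fin] at h2
  rw [Flv_rec, Flv_zero A le_rfl, Matrix.mul_zero, zero_add, h1, one_smul]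

private theorem Flv_tr (A : Matrix (Fin (n + 1)) (Fin (n + 1)) ℂ) (j : ℕ) :
    (Flv_B A j).trace = A.charpoly.coeff (j + 1) * (j + 1) := by
  have h1 := congrArg (fun p : ℂ[X] => p.coeff j) (tra A)
  have h2 : (A.charmatrix.adjugate.trace).coeff j = (Flv_B A j).trace := by
    unfold Matrix.trace
    rw [finsetSum_coeff]
    rfl
  rw [← h2, ← coeff_derivative]
  exact h1

private theorem Flv_main (A : Matrix (Fin (n + 1)) (Fin (n + 1)) ℂ) (i : ℕ) (hi : i ≤ n) :
    flv A i = Flv_B A (n - i) := by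
  induction i with
  | zero =>
    rw [Nat.sub_zero, Flv_top]
    rfl
  | succ i ih =>
    have h1 := ih (by omega)
    obtain ⟨j, hj⟩ : ∃ j, j = n - (i + 1) := ⟨_, rfl⟩
    have hj1 : n - i = j + 1 := by omega
    have hjn : (n : ℂ) = j + (i + 1) := by
      have h2 : n = j + (i + 1) := by omega
      rw [h2]
      push_cast
      ring
    rw [hj1] at h1
    rw [← hj]
    show A * flv A i - ((A * flv A i).trace / ((i : ℂ) + 1)) •
      (1 : Matrix (Fin (n + 1)) (Fin (n + 1)) ℂ) = Flv_B A j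
    have hr := congrArg Matrix.trace (Flv_rec A j)
    rw [Matrix.trace_add, Matrix.trace_smul, Matrix.trace_one, Fintype.card_fin, Flv_tr,
      smul_eq_mul] at hr
    push_cast at hr
    have hi0 : (i : ℂ) + 1 ≠ 0 := Nat.cast_add_one_ne_zero i
    have ht : (A * Flv_B A (j + 1)).trace = -(A.charpoly.coeff (j + 1)) * ((i : ℂ) + 1) := by
      rw [hjn] at hr
      linear_combination -hr
    rw [h1, ht, mul_div_cancel_right₀ _ hi0, neg_smul, sub_neg_eq_add]
    exact (Flv_rec A j).symm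

private theorem Flv_b0 (A : Matrix (Fin (n + 1)) (Fin (n + 1)) ℂ) :
    Flv_B A 0 = (-1 : ℂ) ^ n • A.adjugate := by
  have h1 : Flv_B A 0 = (evalRingHom (0 : ℂ)).mapMatrix A.charmatrix.adjugate := by
    ext a b
    exact coeff_zero_eq_eval_zero _
  have h2 : (evalRingHom (0 : ℂ)).mapMatrix A.charmatrix = (-1 : ℂ) • A := by
    ext a b
    show eval 0 (A.charmatrix a b) = (-1 : ℂ) * A a b
    have e : A.charmatrix a b = Matrix.scalar (Fin (n + 1)) (X : ℂ[X]) a b - C (A a b) := rfl
    rw [e, eval_sub, eval_C, Matrix.scalar_apply, Matrix.diagonal_apply]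
    by_cases hab : a = b
    · rw [if_pos hab, eval_X]
      ring
    · rw [if_neg hab, eval_zero]
      ring
  rw [h1, RingHom.map_adjugate, h2, Matrix.adjugate_smul, Fintype.card_fin, Nat.add_sub_cancel]

end

theorem flv_adj {n : ℕ} (A : Matrix (Fin (n + 1)) (Fin (n + 1)) ℂ) :
    flv A n = (-1 : ℂ) ^ n • A.adjugate := by
  rw [Flv_main A n le_rfl, Nat.sub_self, Flv_b0]

end PadDet.Eq
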