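import Pool.Agent.H.MP_d7db32_ag.Eq.O.Abp
import Pool.Agent.H.MP_d7db32_ag.Eq.Def

/-!
# MP_d7db32_ag, Eq/O/OrB: the expression of polynomial size for the orthogonal group, definitions

`A = X - Xᵀ`, `S = X + Xᵀ`. `orN i X` is the matrix of `Y ↦ A Y - tr (A Y) / (i + 1)` on the space of matrices `Y`,
`orA` is the vector of `1`, `orB X` the functional `Y ↦ tr (Y S)`, `orP r X` the matrix of the product.
-/

set_option autoImplicit false

namespace PadDet.Eq

open Matrix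

variable {n : ℕ}

/-- The step `i` of the recursion. -/
noncomputable def orN (i : ℕ) (X : Matrix (Fin n) (Fin n) ℂ) :
    Matrix (Fin n × Fin n) (Fin n × Fin n) ℂ :=
  Matrix.of fun q q' => (if q.2 = q'.2 then (X - Xᵀ) q.1 q'.1 else 0) -
    (if q.1 = q.2 then (X - Xᵀ) q'.2 q'.1 / ((i : ℂ) + 1) else 0)

/-- The vector of the unit matrix. -/
def orA (n : ℕ) : Fin n × Fin n → ℂ := fun q => if q.1 = q.2 then 1 else 0

/-- The functional `Y ↦ tr (Y (X + Xᵀ))`. -/
def orB (X : Matrix (Fin n) (Fin n) ℂ) : Fin n × Fin n → ℂ := fun q => (X + Xᵀ) q.2 q.1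

/-- The pencil. -/
noncomputable def orP (r : ℕ) (X : Matrix (Fin n) (Fin n) ℂ) :
    Matrix (Unit ⊕ Fin (r + 1) × (Fin n × Fin n)) (Unit ⊕ Fin (r + 1) × (Fin n × Fin n)) ℂ :=
  abp (fun i => orN i.val X) (orA n) (orB X)

end PadDet.Eq
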