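import Pool.Agent.H.MP_d7db32_ag.Eq.O.OrB
import Pool.Agent.H.MP_d7db32_ag.Eq.O.Flv

/-!
# MP_d7db32_ag, Eq/O/OrD: the determinant

`abp_det` with `y i q = (flv A i) q.1 q.2`, `A = X - Xᵀ` (`orN i X *ᵥ vec Y = vec (A Y - tr (A Y) / (i + 1))`); the number of levels is `2 * (k + 1)`, so the value is `b ⬝ᵥ y (2 * (k + 1)) = tr (flv A (2 * (k + 1)) * S) = tr (adj A * S) = Fv X`
(`flv_adj`, `(-1) ^ (2 * (k + 1)) = 1`).
-/

set_option autoImplicit false

namespace PadDet.Eq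

open Matrix

variable {n : ℕ}

private theorem OrD_step (i : ℕ) (X Y : Matrix (Fin n) (Fin n) ℂ) :
    (orN i X *ᵥ fun q : Fin n × Fin n => Y q.1 q.2) = fun q : Fin n × Fin n =>
      ((X - Xᵀ) * Y - (((X - Xᵀ) * Y).trace / ((i : ℂ) + 1)) •
        (1 : Matrix (Fin n) (Fin n) ℂ)) q.1 q.2 := by
  funext q
  have h1 : (orN i X *ᵥ fun q : Fin n × Fin n => Y q.1 q.2) q =
      ∑ q' : Fin n × Fin n, ((if q.2 = q'.2 then (X - Xᵀ) q.1 q'.1 else 0) * Y q'.1 q'.2 -
        (if q.1 = q.2 then (X - Xᵀ) q'.2 q'.1 / ((i : ℂ) + 1) else 0) * Y q'.1 q'.2) := by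
    unfold orN
    rw [Matrix.mulVec, dotProduct]
    refine Finset.sum_congr rfl fun q' _ => ?_
    rw [Matrix.of_apply, sub_mul]
  have h2 : ∑ q' : Fin n × Fin n, (if q.2 = q'.2 then (X - Xᵀ) q.1 q'.1 else 0) * Y q'.1 q'.2 =
      ((X - Xᵀ) * Y) q.1 q.2 := by
    rw [Fintype.sum_prod_type, Matrix.mul_apply]
    refine Finset.sum_congr rfl fun p _ => ?_
    rw [Finset.sum_eq_single q.2]
    · rw [if_pos rfl]
    · intro b _ hb
      rw [if_neg (Ne.symm hb), zero_mul]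
    · intro h
      exact absurd (Finset.mem_univ _) h
  have h3 : ∑ q' : Fin n × Fin n,
      (if q.1 = q.2 then (X - Xᵀ) q'.2 q'.1 / ((i : ℂ) + 1) else 0) * Y q'.1 q'.2 =
      (((X - Xᵀ) * Y).trace / ((i : ℂ) + 1)) * (1 : Matrix (Fin n) (Fin n) ℂ) q.1 q.2 := by
    by_cases h : q.1 = q.2
    · rw [Matrix.one_apply, if_pos h, mul_one, Matrix.trace, Finset.sum_div, Fintype.sum_prod_type,
        Finset.sum_comm]
      refine Finset.sum_congr rfl fun b _ => ?_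
      rw [Matrix.diag_apply, Matrix.mul_apply, Finset.sum_div]
      refine Finset.sum_congr rfl fun a _ => ?_
      rw [if_pos h]
      ring
    · rw [Matrix.one_apply, if_neg h, mul_zero]
      refine Finset.sum_eq_zero fun q' _ => ?_
      rw [if_neg h, zero_mul]
  rw [h1, Finset.sum_sub_distrib, h2, h3, Matrix.sub_apply, Matrix.smul_apply, smul_eq_mul]

theorem orh_det (k : ℕ) (X : Matrix (Fin (2 * (k + 1) + 1)) (Fin (2 * (k + 1) + 1)) ℂ) :
    (orP (2 * k + 1) X).det = Fv X := by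
  have h1 := abp_det (r := 2 * k + 1)
    (fun i : Fin (2 * k + 1 + 1) => orN i.val X) (orA (2 * (k + 1) + 1)) (orB X)
    (fun i q => flv (X - Xᵀ) i q.1 q.2) (by
      funext q
      show (1 : Matrix (Fin (2 * (k + 1) + 1)) (Fin (2 * (k + 1) + 1)) ℂ) q.1 q.2 = _
      rw [Matrix.one_apply]
      rfl)
    (fun i => by
      rw [OrD_step]
      rfl)
  have h2 : flv (X - Xᵀ) (2 * k + 1 + 1) = (X - Xᵀ).adjugate := by
    have h3 := flv_adj (X - Xᵀ)
    have h4 : (-1 : ℂ) ^ (2 * (k + 1)) = 1 := by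
      rw [pow_mul, neg_one_sq, one_pow]
    rw [h4, one_smul] at h3
    exact h3
  unfold orP
  rw [h1, h2]
  unfold Fv
  rw [Matrix.trace, dotProduct, Fintype.sum_prod_type]
  refine Finset.sum_congr rfl fun i _ => ?_
  rw [Matrix.diag_apply, Matrix.mul_apply]
  refine Finset.sum_congr rfl fun j _ => ?_
  show (X + Xᵀ) j i * (X - Xᵀ).adjugate i j = _
  rw [mul_comm]

end PadDet.Eq
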