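import Pool.Agent.H.MP_d7db32_ag.Eq.O.OrB

/-!
# MP_d7db32_ag, Eq/O/OrL: the lifts of the orthogonal group

`D = fromBlocks 1 0 0 (R on each level)`, `R q q' = g q.1 q'.1 * g q.2 q'.2` (`Y ↦ g Y gᵀ`), `D'` the same for `gᵀ` (`gᵀ * g = 1` too). `orN i (g X gᵀ) * R = R * orN i X`, `R *ᵥ orA = orA`, `orB (g X gᵀ) ᵥ* R = orB X`, so `orP r (g X gᵀ) * D = D * orP r X`.
-/

set_option autoImplicit false

namespace PadDet.Eq

open Matrix Kronecker

variable {n : ℕ}

/-- The functional `Y ↦ tr (Y M)` is equivariant. -/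
private theorem OrL_vec {g : Matrix (Fin n) (Fin n) ℂ} (hg : gᵀ * g = 1)
    (M : Matrix (Fin n) (Fin n) ℂ) :
    (fun q : Fin n × Fin n => (g * M * gᵀ) q.2 q.1) ᵥ* (g ⊗ₖ g) = fun q => M q.2 q.1 := by
  funext q
  have h : gᵀ * (g * M * gᵀ) * g = M := by
    calc gᵀ * (g * M * gᵀ) * g = (gᵀ * g) * M * (gᵀ * g) := by
          simp only [Matrix.mul_assoc]
      _ = M := by rw [hg, Matrix.one_mul, Matrix.mul_one]
  have h2 := congrFun (congrFun h q.2) q.1
  rw [Matrix.mul_apply] at h2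
  rw [← h2]
  show ∑ w : Fin n × Fin n, (g * M * gᵀ) w.2 w.1 * (g ⊗ₖ g) w q = _
  rw [Fintype.sum_prod_type]
  refine Finset.sum_congr rfl fun a _ => ?_
  rw [Matrix.mul_apply, Finset.sum_mul]
  refine Finset.sum_congr rfl fun b _ => ?_
  rw [Matrix.kroneckerMap_apply, Matrix.transpose_apply]
  ring

private theorem OrL_A {g : Matrix (Fin n) (Fin n) ℂ} (hg : g * gᵀ = 1) :
    (g ⊗ₖ g) *ᵥ orA n = orA n := by
  funext q
  show ∑ w : Fin n × Fin n, (g ⊗ₖ g) q w * (if w.1 = w.2 then 1 else 0) = if q.1 = q.2 then 1 else 0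
  have h := congrFun (congrFun hg q.1) q.2
  rw [Matrix.one_apply, Matrix.mul_apply] at h
  rw [← h, Fintype.sum_prod_type]
  refine Finset.sum_congr rfl fun a _ => ?_
  rw [Finset.sum_eq_single a]
  · rw [if_pos rfl, mul_one, Matrix.kroneckerMap_apply, Matrix.transpose_apply]
  · intro b _ hb
    rw [if_neg (Ne.symm hb), mul_zero]
  · intro h
    exact absurd (Finset.mem_univ _) h

private theorem OrL_N_eq (i : ℕ) (X : Matrix (Fin n) (Fin n) ℂ) :
    orN i X = (X - Xᵀ) ⊗ₖ (1 : Matrix (Fin n) (Fin n) ℂ) -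
      Matrix.vecMulVec (orA n) (((i : ℂ) + 1)⁻¹ • fun q : Fin n × Fin n => (X - Xᵀ) q.2 q.1) := by
  ext q q'
  rw [Matrix.sub_apply, Matrix.kroneckerMap_apply, Matrix.vecMulVec_apply, Matrix.one_apply]
  show (if q.2 = q'.2 then (X - Xᵀ) q.1 q'.1 else 0) -
    (if q.1 = q.2 then (X - Xᵀ) q'.2 q'.1 / ((i : ℂ) + 1) else 0) = _ -
      (if q.1 = q.2 then 1 else 0) * (((i : ℂ) + 1)⁻¹ * (X - Xᵀ) q'.2 q'.1)
  congr 1
  · split_ifs
    · rw [mul_one]
    · rw [mul_zero]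
  · split_ifs
    · rw [one_mul, div_eq_inv_mul]
    · rw [zero_mul]

private theorem OrL_S {g : Matrix (Fin n) (Fin n) ℂ} (hg : g * gᵀ = 1) (hg' : gᵀ * g = 1) (c : ℂ)
    (S : Matrix (Fin n) (Fin n) ℂ) :
    ((g * S * gᵀ) ⊗ₖ (1 : Matrix (Fin n) (Fin n) ℂ) -
      Matrix.vecMulVec (orA n) (c • fun q : Fin n × Fin n => (g * S * gᵀ) q.2 q.1)) * (g ⊗ₖ g) =
    (g ⊗ₖ g) * (S ⊗ₖ (1 : Matrix (Fin n) (Fin n) ℂ) -
      Matrix.vecMulVec (orA n) (c • fun q : Fin n × Fin n => S q.2 q.1)) := by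
  rw [Matrix.sub_mul, Matrix.mul_sub, ← Matrix.mul_kronecker_mul, ← Matrix.mul_kronecker_mul,
    Matrix.one_mul, Matrix.mul_one, Matrix.vecMulVec_mul, Matrix.mul_vecMulVec, OrL_A hg,
    Matrix.smul_vecMul, OrL_vec hg', Matrix.mul_assoc (g * S), hg', Matrix.mul_one]

private theorem OrL_N {g : Matrix (Fin n) (Fin n) ℂ} (hg : g * gᵀ = 1) (hg' : gᵀ * g = 1) (i : ℕ)
    (X : Matrix (Fin n) (Fin n) ℂ) :
    orN i (g * X * gᵀ) * (g ⊗ₖ g) = (g ⊗ₖ g) * orN i X := by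
  have e : g * X * gᵀ - (g * X * gᵀ)ᵀ = g * (X - Xᵀ) * gᵀ := by
    rw [Matrix.transpose_mul, Matrix.transpose_mul, Matrix.transpose_transpose, Matrix.mul_sub,
      Matrix.sub_mul, Matrix.mul_assoc g Xᵀ gᵀ]
  rw [OrL_N_eq, OrL_N_eq, e]
  exact OrL_S hg hg' _ _

private theorem OrL_B {g : Matrix (Fin n) (Fin n) ℂ} (hg' : gᵀ * g = 1)
    (X : Matrix (Fin n) (Fin n) ℂ) : orB (g * X * gᵀ) ᵥ* (g ⊗ₖ g) = orB X := by
  have e : g * X * gᵀ + (g * X * gᵀ)ᵀ = g * (X + Xᵀ) * gᵀ := by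
    rw [Matrix.transpose_mul, Matrix.transpose_mul, Matrix.transpose_transpose, Matrix.mul_add,
      Matrix.add_mul, Matrix.mul_assoc g Xᵀ gᵀ]
  show (fun q : Fin n × Fin n => (g * X * gᵀ + (g * X * gᵀ)ᵀ) q.2 q.1) ᵥ* (g ⊗ₖ g) = _
  rw [e, OrL_vec hg']
  rfl

/-- The lift of one matrix to all the levels. -/
private def OrL_K (r : ℕ) {p : Type} (R : Matrix p p ℂ) :
    Matrix (Fin (r + 1) × p) (Fin (r + 1) × p) ℂ :=
  Matrix.of fun v v' => if v.1 = v'.1 then R v.2 v'.2 else 0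

private theorem OrL_K_mul {r : ℕ} {p : Type} [Fintype p] {α : Type} (R : Matrix p p ℂ)
    (Z : Matrix (Fin (r + 1) × p) α ℂ) (v : Fin (r + 1) × p) (w : α) :
    (OrL_K r R * Z) v w = ∑ c, R v.2 c * Z (v.1, c) w := by
  rw [Matrix.mul_apply, Fintype.sum_prod_type, Finset.sum_eq_single v.1]
  · refine Finset.sum_congr rfl fun c _ => ?_
    show (if v.1 = v.1 then R v.2 c else 0) * _ = _
    rw [if_pos rfl]
  · intro b _ hb
    refine Finset.sum_eq_zero fun c _ => ?_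
    show (if v.1 = b then R v.2 c else 0) * _ = _
    rw [if_neg (Ne.symm hb), zero_mul]
  · intro h
    exact absurd (Finset.mem_univ _) h

private theorem OrL_mul_K {r : ℕ} {p : Type} [Fintype p] {α : Type} (R : Matrix p p ℂ)
    (Z : Matrix α (Fin (r + 1) × p) ℂ) (w : α) (v : Fin (r + 1) × p) :
    (Z * OrL_K r R) w v = ∑ c, Z w (v.1, c) * R c v.2 := by
  rw [Matrix.mul_apply, Fintype.sum_prod_type, Finset.sum_eq_single v.1]
  · refine Finset.sum_congr rfl fun c _ => ?_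
    show _ * (if v.1 = v.1 then R c v.2 else 0) = _
    rw [if_pos rfl]
  · intro b _ hb
    refine Finset.sum_eq_zero fun c _ => ?_
    show _ * (if b = v.1 then R c v.2 else 0) = _
    rw [if_neg hb, mul_zero]
  · intro h
    exact absurd (Finset.mem_univ _) h

private theorem OrL_K_inv {r : ℕ} {p : Type} [Fintype p] [DecidableEq p] {R R' : Matrix p p ℂ}
    (h : R * R' = 1) : OrL_K r R * OrL_K r R' = 1 := by
  ext v w
  rw [OrL_K_mul]
  show ∑ c, R v.2 c * (if v.1 = w.1 then R' c w.2 else 0) = _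
  have h2 := congrFun (congrFun h v.2) w.2
  rw [Matrix.mul_apply, Matrix.one_apply] at h2
  rw [Matrix.one_apply]
  by_cases h1 : v.1 = w.1
  · have h3 : v = w ↔ v.2 = w.2 := ⟨fun h => congrArg Prod.snd h, fun h => Prod.ext h1 h⟩
    simp only [if_pos h1, h2, h3]
  · have h3 : v ≠ w := fun h3 => h1 (congrArg Prod.fst h3)
    simp only [if_neg h1, mul_zero, Finset.sum_const_zero, if_neg h3]

private theorem OrL_abp {r : ℕ} {p : Type} [Fintype p] [DecidableEq p]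
    (N N' : Fin (r + 1) → Matrix p p ℂ) (a b b' : p → ℂ) (R : Matrix p p ℂ)
    (hN : ∀ i, N' i * R = R * N i) (ha : R *ᵥ a = a) (hb : b' ᵥ* R = b) :
    abp N' a b' * Matrix.fromBlocks 1 0 0 (OrL_K r R) =
      Matrix.fromBlocks 1 0 0 (OrL_K r R) * abp N a b := by
  unfold abp
  rw [Matrix.fromBlocks_multiply, Matrix.fromBlocks_multiply]
  simp only [Matrix.zero_mul, Matrix.mul_zero, Matrix.one_mul, Matrix.mul_one, zero_add, add_zero]
  congr 1
  · ext u v
    rw [OrL_mul_K]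
    show ∑ c, (if v.1 = Fin.last r then b' c else 0) * R c v.2 =
      if v.1 = Fin.last r then b v.2 else 0
    by_cases h1 : v.1 = Fin.last r
    · simp only [if_pos h1, ← hb]
      rfl
    · simp only [if_neg h1, zero_mul, Finset.sum_const_zero]
  · ext v u
    rw [OrL_K_mul]
    show (if v.1 = 0 then -(N' 0 *ᵥ a) v.2 else 0) =
      ∑ c, R v.2 c * (if v.1 = 0 then -(N 0 *ᵥ a) c else 0)
    by_cases h1 : v.1 = 0
    · have e : N' 0 *ᵥ a = R *ᵥ (N 0 *ᵥ a) := by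
        rw [Matrix.mulVec_mulVec, ← hN, ← Matrix.mulVec_mulVec, ha]
      simp only [if_pos h1, e, mul_neg, Finset.sum_neg_distrib]
      rfl
    · simp only [if_neg h1, mul_zero, Finset.sum_const_zero]
  · ext v w
    rw [OrL_mul_K, OrL_K_mul]
    show ∑ c, ((if v = (w.1, c) then 1 else 0) -
        if v.1.val = w.1.val + 1 then N' v.1 v.2 c else 0) * R c w.2 =
      ∑ c, R v.2 c * ((if (v.1, c) = w then 1 else 0) -
        if v.1.val = w.1.val + 1 then N v.1 c w.2 else 0)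
    simp only [sub_mul, mul_sub, Finset.sum_sub_distrib]
    congr 1
    · by_cases h1 : v.1 = w.1
      · rw [Finset.sum_eq_single v.2, Finset.sum_eq_single w.2]
        · have h2 : v = (w.1, v.2) := Prod.ext h1 rfl
          have h3 : (v.1, w.2) = w := Prod.ext h1 rfl
          rw [if_pos h2, if_pos h3, one_mul, mul_one]
        · intro c _ hc
          have h2 : ¬ (v.1, c) = w := fun h => hc (congrArg Prod.snd h)
          rw [if_neg h2, mul_zero]
        · intro h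
          exact absurd (Finset.mem_univ _) h
        · intro c _ hc
          have h2 : ¬ v = (w.1, c) := fun h => hc (congrArg Prod.snd h).symm
          rw [if_neg h2, zero_mul]
        · intro h
          exact absurd (Finset.mem_univ _) h
      · rw [Finset.sum_eq_zero, Finset.sum_eq_zero]
        · intro c _
          have h2 : ¬ (v.1, c) = w := fun h => h1 (congrArg (fun z => z.1) h)
          rw [if_neg h2, mul_zero]
        · intro c _
          have h2 : ¬ v = (w.1, c) := fun h => h1 (congrArg (fun z => z.1) h)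
          rw [if_neg h2, zero_mul]
    · by_cases h1 : v.1.val = w.1.val + 1
      · simp only [if_pos h1]
        have h2 := congrFun (congrFun (hN v.1) v.2) w.2
        rw [Matrix.mul_apply, Matrix.mul_apply] at h2
        exact h2
      · simp only [if_neg h1, zero_mul, mul_zero]

theorem orh_lift (r : ℕ) {g : Matrix (Fin n) (Fin n) ℂ} (hg : g * gᵀ = 1) :
    ∃ D D' : Matrix (Unit ⊕ Fin (r + 1) × (Fin n × Fin n)) (Unit ⊕ Fin (r + 1) × (Fin n × Fin n)) ℂ,
      D * D' = 1 ∧ ∀ X, orP r (g * X * gᵀ) = D * orP r X * D' := by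
  have hg' : gᵀ * g = 1 := mul_eq_one_comm.1 hg
  have hR : (g ⊗ₖ g) * (gᵀ ⊗ₖ gᵀ) = 1 := by
    rw [← Matrix.mul_kronecker_mul, hg, Matrix.one_kronecker_one]
  have hD : Matrix.fromBlocks (1 : Matrix Unit Unit ℂ) 0 0 (OrL_K r (g ⊗ₖ g)) *
      Matrix.fromBlocks (1 : Matrix Unit Unit ℂ) 0 0 (OrL_K r (gᵀ ⊗ₖ gᵀ)) = 1 := by
    rw [Matrix.fromBlocks_multiply, OrL_K_inv hR]
    simp only [Matrix.zero_mul, Matrix.mul_zero, Matrix.one_mul, zero_add, add_zero,
      Matrix.fromBlocks_one]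
  refine ⟨_, _, hD, fun X => ?_⟩
  have h : orP r (g * X * gᵀ) * Matrix.fromBlocks 1 0 0 (OrL_K r (g ⊗ₖ g)) =
      Matrix.fromBlocks 1 0 0 (OrL_K r (g ⊗ₖ g)) * orP r X :=
    OrL_abp _ _ _ _ _ _ (fun i => OrL_N hg hg' i.val X) (OrL_A hg) (OrL_B hg' X)
  rw [← h, Matrix.mul_assoc (orP r _), hD, Matrix.mul_one]

end PadDet.Eq
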