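import Pool.Agent.H.MP_d7db32_ag.Eq.O.OrB

/-!
# MP_d7db32_ag, Eq/O/OrM: the pencil is affine

`M X = orP r X - orP r 0`; additivity and homogeneity block by block (`orN i` and `orB` are linear in `X`).
-/

set_option autoImplicit false

namespace PadDet.Eq

open Matrix

variable {n : ℕ}

private theorem OrM_N_add (i : ℕ) (X Y : Matrix (Fin n) (Fin n) ℂ) :
    orN i (X + Y) = orN i X + orN i Y := by
  ext q q'
  simp only [orN, Matrix.of_apply, Matrix.add_apply, Matrix.sub_apply, Matrix.transpose_apply]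
  split_ifs <;> ring

private theorem OrM_N_smul (i : ℕ) (c : ℂ) (X : Matrix (Fin n) (Fin n) ℂ) :
    orN i (c • X) = c • orN i X := by
  ext q q'
  simp only [orN, Matrix.of_apply, Matrix.smul_apply, Matrix.sub_apply, Matrix.transpose_apply,
    smul_eq_mul]
  split_ifs <;> ring

private theorem OrM_B_add (X Y : Matrix (Fin n) (Fin n) ℂ) : orB (X + Y) = orB X + orB Y := by
  funext q
  simp only [orB, Pi.add_apply, Matrix.add_apply, Matrix.transpose_apply]
  ring

private theorem OrM_B_smul (c : ℂ) (X : Matrix (Fin n) (Fin n) ℂ) : orB (c • X) = c • orB X := by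
  funext q
  simp only [orB, Pi.smul_apply, Matrix.smul_apply, Matrix.add_apply, Matrix.transpose_apply,
    smul_eq_mul]
  ring

/-- The linear part. -/
private noncomputable def OrM_L (r : ℕ) (X : Matrix (Fin n) (Fin n) ℂ) :
    Matrix (Unit ⊕ Fin (r + 1) × (Fin n × Fin n)) (Unit ⊕ Fin (r + 1) × (Fin n × Fin n)) ℂ :=
  Matrix.fromBlocks 0
    (Matrix.of fun _ v => if v.1 = Fin.last r then orB X v.2 else 0)
    (Matrix.of fun v _ => if v.1 = 0 then -(orN 0 X *ᵥ orA n) v.2 else 0)
    (Matrix.of fun v v' => -(if v.1.val = v'.1.val + 1 then orN v.1.val X v.2 v'.2 else 0))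

private theorem OrM_add (r : ℕ) (X Y : Matrix (Fin n) (Fin n) ℂ) :
    OrM_L r (X + Y) = OrM_L r X + OrM_L r Y := by
  unfold OrM_L
  rw [Matrix.fromBlocks_add, add_zero]
  congr 1
  · ext u v
    simp only [Matrix.of_apply, Matrix.add_apply, OrM_B_add, Pi.add_apply]
    split_ifs <;> ring
  · ext v u
    simp only [Matrix.of_apply, Matrix.add_apply, OrM_N_add, Matrix.add_mulVec, Pi.add_apply]
    split_ifs <;> ring
  · ext v v'
    simp only [Matrix.of_apply, Matrix.add_apply, OrM_N_add]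
    split_ifs <;> ring

private theorem OrM_smul (r : ℕ) (c : ℂ) (X : Matrix (Fin n) (Fin n) ℂ) :
    OrM_L r (c • X) = c • OrM_L r X := by
  unfold OrM_L
  rw [Matrix.fromBlocks_smul, smul_zero]
  congr 1
  · ext u v
    simp only [Matrix.of_apply, Matrix.smul_apply, OrM_B_smul, Pi.smul_apply, smul_eq_mul]
    split_ifs <;> ring
  · ext v u
    simp only [Matrix.of_apply, Matrix.smul_apply, OrM_N_smul, Matrix.smul_mulVec, Pi.smul_apply,
      smul_eq_mul]
    split_ifs <;> ring
  · ext v v'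
    simp only [Matrix.of_apply, Matrix.smul_apply, OrM_N_smul, smul_eq_mul]
    split_ifs <;> ring

/-- `orP` is affine in `X`. -/
theorem orh_lin (r : ℕ) : ∃ M : Matrix (Fin n) (Fin n) ℂ →ₗ[ℂ]
    Matrix (Unit ⊕ Fin (r + 1) × (Fin n × Fin n)) (Unit ⊕ Fin (r + 1) × (Fin n × Fin n)) ℂ,
    ∀ X, orP r X = orP r 0 + M X := by
  refine ⟨{ toFun := OrM_L r, map_add' := OrM_add r, map_smul' := OrM_smul r }, fun X => ?_⟩
  show orP r X = orP r 0 + OrM_L r X
  have hN : ∀ i, orN i (0 : Matrix (Fin n) (Fin n) ℂ) = 0 := by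
    intro i
    have h := OrM_N_smul i 0 (0 : Matrix (Fin n) (Fin n) ℂ)
    rwa [smul_zero, zero_smul] at h
  have hB : orB (0 : Matrix (Fin n) (Fin n) ℂ) = 0 := by
    have h := OrM_B_smul 0 (0 : Matrix (Fin n) (Fin n) ℂ)
    rwa [smul_zero, zero_smul] at h
  unfold orP abp OrM_L
  rw [Matrix.fromBlocks_add, add_zero]
  congr 1
  · ext u v
    simp only [Matrix.of_apply, Matrix.add_apply, hB, Pi.zero_apply]
    split_ifs <;> ring
  · ext v u
    simp only [Matrix.of_apply, Matrix.add_apply, Fin.val_zero, hN, Matrix.zero_mulVec,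
      Pi.zero_apply, neg_zero]
    split_ifs <;> ring
  · ext v v'
    simp only [Matrix.of_apply, Matrix.add_apply, hN, Matrix.zero_apply]
    split_ifs <;> ring

end PadDet.Eq
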