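import Pool.Agent.H.MP_d7db32_ag.Eq.O.OrD
import Pool.Agent.H.MP_d7db32_ag.Eq.O.OrL
import Pool.Agent.H.MP_d7db32_ag.Eq.O.OrM

/-!
# MP_d7db32_ag, Eq/O/OrF: an expression of polynomial size with the symmetry of the orthogonal group
-/

set_option autoImplicit false

namespace PadDet.Eq

open Matrix

private theorem OrF_one : ∃ (L : Matrix (Fin 1) (Fin 1) ℂ)
    (M : Matrix (Fin 1) (Fin 1) ℂ →ₗ[ℂ] Matrix (Fin 1) (Fin 1) ℂ),
    (∀ X, (L + M X).det = Fv X) ∧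
      ∀ g : GL (Fin 1) ℂ, (g : Matrix (Fin 1) (Fin 1) ℂ) * (g : Matrix (Fin 1) (Fin 1) ℂ)ᵀ = 1 →
        ∃ A B : GL (Fin 1) ℂ, ∀ X : Matrix (Fin 1) (Fin 1) ℂ,
          L + M ((g : Matrix (Fin 1) (Fin 1) ℂ) * X * (g : Matrix (Fin 1) (Fin 1) ℂ)ᵀ) =
            (A : Matrix (Fin 1) (Fin 1) ℂ) * (L + M X) * (B : Matrix (Fin 1) (Fin 1) ℂ) := by
  refine ⟨0, (2 : ℂ) • LinearMap.id, fun X => ?_, fun g hg => ⟨1, 1, fun X => ?_⟩⟩
  · unfold Fv
    rw [Matrix.adjugate_subsingleton, Matrix.one_mul, Matrix.det_unique, Matrix.trace,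
      Fin.sum_univ_one]
    simp only [Matrix.zero_apply, zero_add, LinearMap.smul_apply, LinearMap.id_apply,
      Matrix.add_apply, Matrix.smul_apply, Matrix.diag_apply, Matrix.transpose_apply, smul_eq_mul,
      Fin.default_eq_zero]
    ring
  · have h0 := congrFun (congrFun hg 0) 0
    rw [Matrix.mul_apply, Fin.sum_univ_one, Matrix.transpose_apply, Matrix.one_apply_eq] at h0
    have e : (g : Matrix (Fin 1) (Fin 1) ℂ) * X * (g : Matrix (Fin 1) (Fin 1) ℂ)ᵀ = X := by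
      ext i j
      have hi : i = 0 := Subsingleton.elim _ _
      have hj : j = 0 := Subsingleton.elim _ _
      subst hi hj
      rw [Matrix.mul_apply, Fin.sum_univ_one, Matrix.mul_apply, Fin.sum_univ_one,
        Matrix.transpose_apply]
      calc (g : Matrix (Fin 1) (Fin 1) ℂ) 0 0 * X 0 0 * (g : Matrix (Fin 1) (Fin 1) ℂ) 0 0 =
          ((g : Matrix (Fin 1) (Fin 1) ℂ) 0 0 * (g : Matrix (Fin 1) (Fin 1) ℂ) 0 0) * X 0 0 := by
            ring
        _ = X 0 0 := by rw [h0, one_mul]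
    rw [e, Units.val_one, one_mul, mul_one]

theorem orf (k : ℕ) : ∃ (L : Matrix (Fin (2 * k * (2 * k + 1) ^ 2 + 1))
      (Fin (2 * k * (2 * k + 1) ^ 2 + 1)) ℂ)
    (M : Matrix (Fin (2 * k + 1)) (Fin (2 * k + 1)) ℂ →ₗ[ℂ]
      Matrix (Fin (2 * k * (2 * k + 1) ^ 2 + 1)) (Fin (2 * k * (2 * k + 1) ^ 2 + 1)) ℂ),
    (∀ X, (L + M X).det = Fv X) ∧
      ∀ g : GL (Fin (2 * k + 1)) ℂ, (g : Matrix (Fin (2 * k + 1)) (Fin (2 * k + 1)) ℂ) *
          (g : Matrix (Fin (2 * k + 1)) (Fin (2 * k + 1)) ℂ)ᵀ = 1 →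
        ∃ A B : GL (Fin (2 * k * (2 * k + 1) ^ 2 + 1)) ℂ,
          ∀ X : Matrix (Fin (2 * k + 1)) (Fin (2 * k + 1)) ℂ,
          L + M ((g : Matrix (Fin (2 * k + 1)) (Fin (2 * k + 1)) ℂ) * X *
            (g : Matrix (Fin (2 * k + 1)) (Fin (2 * k + 1)) ℂ)ᵀ) =
            (A : Matrix (Fin (2 * k * (2 * k + 1) ^ 2 + 1))
              (Fin (2 * k * (2 * k + 1) ^ 2 + 1)) ℂ) * (L + M X) *
            (B : Matrix (Fin (2 * k * (2 * k + 1) ^ 2 + 1))
              (Fin (2 * k * (2 * k + 1) ^ 2 + 1)) ℂ) := by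
  obtain ⟨m, hm⟩ : ∃ m, m = 2 * k * (2 * k + 1) ^ 2 + 1 := ⟨_, rfl⟩
  rw [← hm]
  rcases Nat.eq_zero_or_pos k with rfl | hk
  · have e : m = 1 := by rw [hm]; rfl
    subst e
    exact OrF_one
  · obtain ⟨l, rfl⟩ : ∃ l, k = l + 1 := ⟨k - 1, by omega⟩
    obtain ⟨M, hM⟩ := orh_lin (n := 2 * (l + 1) + 1) (2 * l + 1)
    have hcard : Fintype.card (Unit ⊕ Fin (2 * l + 1 + 1) ×
        (Fin (2 * (l + 1) + 1) × Fin (2 * (l + 1) + 1))) = m := by
      simp only [Fintype.card_sum, Fintype.card_unit, Fintype.card_prod, Fintype.card_fin]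
      rw [hm]
      ring
    obtain ⟨e, -⟩ : ∃ e : (Unit ⊕ Fin (2 * l + 1 + 1) ×
        (Fin (2 * (l + 1) + 1) × Fin (2 * (l + 1) + 1))) ≃ Fin m, True :=
      ⟨Fintype.equivFinOfCardEq hcard, trivial⟩
    refine ⟨Matrix.reindex e e (orP (2 * l + 1) 0),
      (Matrix.reindexLinearEquiv ℂ ℂ e e).toLinearMap ∘ₗ M, fun X => ?_, fun g hg => ?_⟩
    · have e1 : Matrix.reindex e e (orP (2 * l + 1) 0) +
          ((Matrix.reindexLinearEquiv ℂ ℂ e e).toLinearMap ∘ₗ M) X =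
          Matrix.reindex e e (orP (2 * l + 1) X) := by
        rw [hM X]
        rfl
      rw [e1, Matrix.det_reindex_self, orh_det]
    · have e1 : ∀ X, Matrix.reindex e e (orP (2 * l + 1) 0) +
          ((Matrix.reindexLinearEquiv ℂ ℂ e e).toLinearMap ∘ₗ M) X =
          Matrix.reindex e e (orP (2 * l + 1) X) := by
        intro X
        rw [hM X]
        rfl
      obtain ⟨D, D', hD, hDX⟩ := orh_lift (2 * l + 1) hg
      have hD1 : Matrix.reindex e e D * Matrix.reindex e e D' = 1 := by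
        rw [Matrix.reindex_apply, Matrix.reindex_apply, Matrix.submatrix_mul_equiv, hD,
          Matrix.submatrix_one_equiv]
      have hD2 : Matrix.reindex e e D' * Matrix.reindex e e D = 1 :=
        mul_eq_one_comm.1 hD1
      refine ⟨⟨_, _, hD1, hD2⟩, ⟨_, _, hD2, hD1⟩, fun X => ?_⟩
      rw [e1, e1, hDX]
      show Matrix.reindex e e (D * orP (2 * l + 1) X * D') =
        Matrix.reindex e e D * Matrix.reindex e e (orP (2 * l + 1) X) * Matrix.reindex e e D'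
      simp only [Matrix.reindex_apply, Matrix.submatrix_mul_equiv]

end PadDet.Eq
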