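import Pool.Agent.H.MP_d7db32_ag.E

/-!
# MP_d7db32_ag, Eq/O/Tra: the trace of the adjugate of the characteristic matrix

For all `x : ℂ` (`Polynomial.funext`): the value of the left side at `x` is `tr (adj (x - A))` (`RingHom.map_adjugate`, `RingHom.map_trace`, `Matrix.charmatrix`), the value of the right side is the derivative at `0` of
`det ((x - A) + h * 1)` as a polynomial in `h` (`Polynomial.derivative`, `Polynomial.eval`, composition with `X + C x`), which is `tr (adj (x - A) * 1)` (see the first theorem of the file E: derivative of `det (A + X Y)`).
-/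

set_option autoImplicit false

namespace PadDet.Eq

open Matrix Polynomial

theorem tra {n : ℕ} (A : Matrix (Fin n) (Fin n) ℂ) :
    (A.charmatrix.adjugate).trace = derivative A.charpoly := by
  have h1 := der_det (Polynomial.derivative' : Derivation ℂ (Polynomial ℂ) (Polynomial ℂ))
    A.charmatrix
  have h3 : (Polynomial.derivative' : Derivation ℂ (Polynomial ℂ) (Polynomial ℂ))
      A.charmatrix.det = derivative A.charpoly := rfl
  rw [← h3, h1, Matrix.trace]
  refine Finset.sum_congr rfl fun i _ => ?_
  have h5 : (fun a => (Polynomial.derivative' : Derivation ℂ (Polynomial ℂ) (Polynomial ℂ))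
      (A.charmatrix a i)) = Pi.single i 1 := by
    funext a
    show derivative (A.charmatrix a i) = _
    rw [Matrix.charmatrix_apply]
    by_cases h : a = i
    · subst h
      simp
    · simp [h, Matrix.diagonal_apply_ne]
  rw [h5, ← Matrix.cramer_apply, Matrix.cramer_eq_adjugate_mulVec, Matrix.mulVec_single_one]
  rfl

end PadDet.Eq
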